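import Pool.Agent.Helper80.KC.OddFive

set_option autoImplicit false

/-!
# The refined Koblitz conjecture for every odd `t` divisible by `5`, for all quadratic twists
-/

namespace Pool.Agent.Results.MP_b89fd0_nt.OddMultiplesOfFive

open Filter

/-- `|E(𝔽_p)|`: the number of points of the reduction of `E` modulo `p` (affine solutions of the
reduced Weierstrass equation, plus the point at infinity), as in the frozen statement. -/
noncomputable def numPts (E : WeierstrassCurve ℤ) (p : ℕ) : ℕ :=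
  Nat.card {q : ZMod p × ZMod p //
    (E.map (Int.castRingHom (ZMod p))).toAffine.Equation q.1 q.2} + 1

open Classical in
/-- `π_{E,t}(x)`: the number of primes `p ≤ x`, `p ∤ Δ`, such that `|E(𝔽_p)|/t` is a prime. -/
noncomputable def koblitzCount (E : WeierstrassCurve ℤ) (t x : ℕ) : ℕ :=
  ((Finset.range (x + 1)).filter (fun p : ℕ => p.Prime ∧ ¬ (((p : ℕ) : ℤ) ∣ E.Δ) ∧
    t ∣ numPts E p ∧ Nat.Prime (numPts E p / t))).card

open Classical in
/-- The proportion, among the primes `≤ x`, of the primes `p ∤ Δ` with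
`|E(𝔽_p)| ∈ t · (ℤ/m)ˣ`. -/
noncomputable def unitFreq (E : WeierstrassCurve ℤ) (t m x : ℕ) : ℝ :=
  (((Finset.range (x + 1)).filter (fun p : ℕ => p.Prime ∧ ¬ (((p : ℕ) : ℤ) ∣ E.Δ) ∧
      ∃ u : ZMod m, IsUnit u ∧ ((numPts E p : ℕ) : ZMod m) = (t : ZMod m) * u)).card : ℝ) /
    (((Finset.range (x + 1)).filter Nat.Prime).card : ℝ)

/-- The refined Koblitz conjecture for the pair `(E, t)`, in the form of the frozen statement:
if `δ m` is the natural density of the primes `p` with `|E(𝔽_p)| ∈ t · (ℤ/m)ˣ` and `C` is the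
limit of `δ (n!) / ∏_{ℓ ∣ n!} (1 - 1/ℓ)`, then `π_{E,t}(x) / (x / (log x)^2) → C`. -/
def RefinedKoblitz (E : WeierstrassCurve ℤ) (t : ℕ) : Prop :=
  ∀ (δ : ℕ → ℝ) (C : ℝ),
    (∀ m : ℕ, 0 < m → Tendsto (fun x : ℕ => unitFreq E t m x) atTop (nhds (δ m))) →
    Tendsto (fun n : ℕ => δ (Nat.factorial n) /
        ∏ ℓ ∈ (Nat.factorial n).primeFactors, (1 - 1 / (ℓ : ℝ))) atTop (nhds C) →
    Tendsto (fun x : ℕ => (koblitzCount E t x : ℝ) / ((x : ℝ) / (Real.log x) ^ 2)) atTop (nhds C)

/-- The constant `C_{E,t}` vanishes because of a congruence obstruction: for all multiples `m` of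
some `m₀ > 0`, the density of the primes `p ∤ Δ` with `|E(𝔽_p)| ∈ t · (ℤ/m)ˣ` is zero. -/
def ConstantZero (E : WeierstrassCurve ℤ) (t : ℕ) : Prop :=
  ∃ m₀ : ℕ, 0 < m₀ ∧ ∀ m : ℕ, 0 < m → m₀ ∣ m →
    Tendsto (fun x : ℕ => unitFreq E t m x) atTop (nhds 0)

/-- The refined Koblitz conjecture for `(E, t)` with vanishing constant: there are only finitely
many primes `p ∤ Δ` such that `|E(𝔽_p)|/t` is a prime, `C_{E,t} = 0`, and the refined Koblitz
conjecture holds for `(E, t)`. -/
def KoblitzZero (E : WeierstrassCurve ℤ) (t : ℕ) : Prop :=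
  {p : ℕ | p.Prime ∧ ¬ (((p : ℕ) : ℤ) ∣ E.Δ) ∧ t ∣ numPts E p ∧
      Nat.Prime (numPts E p / t)}.Finite ∧ ConstantZero E t ∧ RefinedKoblitz E t

/-- The `j`-invariant of `E`. -/
def jInv (E : WeierstrassCurve ℤ) : ℚ := (E.c₄ : ℚ) ^ 3 / (E.Δ : ℚ)

/-- `E` is an elliptic curve over `ℚ` without complex multiplication, as in the problem: `Δ ≠ 0` and
`j(E)` is not one of the thirteen CM values. -/
def NonCM (E : WeierstrassCurve ℤ) : Prop :=
  E.Δ ≠ 0 ∧ jInv E ∉ ({0, 1728, -3375, 8000, -32768, 54000, 287496, -884736,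
    -12288000, 16581375, -884736000, -147197952000, -262537412640768000} : Set ℚ)

/-- There are two primes `p, q > 3` of good reduction with coprime numbers of points. Hence no curve
isogenous to `E` has a rational torsion point other than `0`. -/
def NoTorsion (E : WeierstrassCurve ℤ) : Prop :=
  ∃ p q : ℕ, p.Prime ∧ q.Prime ∧ 3 < p ∧ 3 < q ∧ ¬ ((p : ℤ) ∣ E.Δ) ∧ ¬ ((q : ℤ) ∣ E.Δ) ∧
    (numPts E p).Coprime (numPts E q)

/-- The quadratic twist `E^D`, as the short Weierstrass equation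
`Y² = X³ - 27 c₄ D² X - 54 c₆ D³`. -/
def quadTwist (E : WeierstrassCurve ℤ) (D : ℤ) : WeierstrassCurve ℤ :=
  ⟨0, 0, 0, -27 * E.c₄ * D ^ 2, -54 * E.c₆ * D ^ 3⟩

/-- `E'` and `E` have the same number of points modulo almost all primes, that is, they are
isogenous over `ℚ` (Faltings). -/
def Isogenous (E' E : WeierstrassCurve ℤ) : Prop :=
  {p : ℕ | p.Prime ∧ numPts E' p ≠ numPts E p}.Finite

/-- There are elliptic curves `E` over `ℚ` without complex multiplication, with arbitrarily large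
`j`-invariants and without torsion in the isogeny class, such that the refined Koblitz conjecture
(with only finitely many prime values, and constant zero) holds for **every odd `t` which is
divisible by `5`**, for all quadratic twists of `E` and for all elliptic curves isogenous to these;
moreover `|E^D(𝔽_p)|` is even if it is divisible by `5`, for almost all primes `p`. -/
theorem result : ∀ B : ℚ, ∃ E : WeierstrassCurve ℤ, NonCM E ∧ B < jInv E ∧ NoTorsion E ∧
    ∀ D : ℤ, D ≠ 0 →
      {p : ℕ | p.Prime ∧ 5 ∣ numPts (quadTwist E D) p ∧ ¬ 2 ∣ numPts (quadTwist E D) p}.Finite ∧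
      ∀ E' : WeierstrassCurve ℤ, NonCM E' → Isogenous E' (quadTwist E D) →
        ∀ t : ℕ, Odd t → 5 ∣ t → KoblitzZero E' t :=
  Pool.Agent.Helper80.KC.odd_multiples_of_five

end Pool.Agent.Results.MP_b89fd0_nt.OddMultiplesOfFive
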