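import Pool.Agent.Helper70.TW.Crisp

set_option autoImplicit false

/-!
# A zero-one law for the refined Koblitz conjecture in families of quadratic twists

For an elliptic curve `E` over `ℚ`, `koblitzCount E t x` is the number of good primes `p ≤ x` such
that `|E(𝔽_p)|/t` is a prime, and `meanCount E t x` the mean of the numbers of the primes `p ≤ x`,
`p ∤ 6 Δ`, such that `|E(𝔽_p)|/t`, respectively `(2p + 2 - |E(𝔽_p)|)/t`, is a prime. `quadTwist E D`
is the quadratic twist `E^D`. The refined Koblitz conjecture says that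
`defect E t n x = π_{E,t}(x) (log x)² / x - (share of the p ≤ x with |E(𝔽_p)| ∈ t (ℤ/n!)ˣ) /
∏_{ℓ ≤ n} (1 - 1/ℓ)` tends to `0` as `x → ∞` and then `n → ∞`.

The proof. For `p ∤ 6 D Δ`, `|E^D(𝔽_p)|` is `|E(𝔽_p)|` or `2 p + 2 - |E(𝔽_p)|` as the Legendre symbol
of `D` is `1` or `-1`, so the count for `E^D` minus the mean is half a sum of `c_p (D / p)` with
`|c_p| ≤ 1` over the primes `p ≤ x`, up to the prime divisors of `D`. The `k`-th power of the sum is
a sum over `n ≤ x ^ k`, and the inequality of Bombieri and Selberg for the characters `n ↦ (D / n)`,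
`D` square-free, leaves at most `(log x) ^ m` exceptions among the `|D| ≤ x ^ B`. Small `x` are
treated with moments over `D`, all `x ≤ e^L` with a grid of `L^m` points. The same applies to the
frequencies of `|E^D(𝔽_p)| ∈ t (ℤ/n!)ˣ`, so what holds for polylogarithmically many twists holds for
the mean and then for almost all twists.
-/

namespace Pool.Agent.Results.MP_b89fd0_nt.ZeroOneTwists

open Finset Pool.Agent.Helper28.Koblitz Pool.Agent.Helper70.TW

/-- For all `A`, `B` there is `m` such that for every elliptic curve `E` (integral Weierstrass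
equation) and `x ≥ 3` all but `(log x) ^ m` of the square-free `|D| ≤ x ^ B` satisfy
`|π_{E^D,t}(x) - M_{E,t}(x)| ≤ x / (log x) ^ A` for all `t`.

There is `κ > 0` and for every `B ≥ 1` there is `K` such that for every `E` and `t` the refined
Koblitz conjecture holds for almost all twists `E^D`, uniformly in `x₀ ≤ x ≤ exp (Y ^ κ)`,
`|D| ≤ Y`, if and only if at each large `x` it holds for at least `(log x) ^ K` of the square-free
`|D| ≤ x ^ B`. -/
theorem result :
    (∀ A B : ℕ, ∃ m : ℕ, ∀ (E : WeierstrassCurve ℤ) (x : ℕ), 3 ≤ x →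
      ((sel (x ^ B) (fun D => ∃ t : ℕ, (x : ℝ) / (Real.log x) ^ A <
        |(koblitzCount (quadTwist E D) t x : ℝ) - meanCount E t x|)).card : ℝ) ≤
        (Real.log x) ^ m) ∧
    (∃ κ : ℝ, 0 < κ ∧ ∀ B : ℕ, 1 ≤ B → ∃ K : ℕ, ∀ (E : WeierstrassCurve ℤ) (t : ℕ),
      AlmostAllRefined κ E t ↔ SomeRefined B K E t) :=
  ⟨one_scale, zero_one'⟩

end Pool.Agent.Results.MP_b89fd0_nt.ZeroOneTwists
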